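import Pool.Agent.L5helper87.SW.Lab

/-!
# Symmetric circuits do not see the charges
-/

set_option autoImplicit false

open Equiv Finset

namespace Pool.Agent.L5helper87.SW

open Pool.Agent.L5helper42.Sym

variable {κ : ℕ} {β : Type} [Fintype β] [DecidableEq β]

/-- The even permutations which fix `B`. -/
def Gam (B : Finset β) : Finset (Perm β) :=
  univ.filter fun π => Perm.sign π = 1 ∧ ∀ b ∈ B, π b = b

lemma mem_Gam {B : Finset β} {π : Perm β} : π ∈ Gam B ↔ Perm.sign π = 1 ∧ ∀ b ∈ B, π b = b := by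
  simp [Gam]

lemma mul_mem_Gam {B : Finset β} {π ρ : Perm β} (hρ : ρ ∈ Gam B) :
    π * ρ⁻¹ ∈ Gam B ↔ π ∈ Gam B := by
  rw [mem_Gam] at hρ
  rw [mem_Gam, mem_Gam]
  have h1 : ∀ b ∈ B, ρ⁻¹ b = b := fun b hb => by
    rw [Perm.inv_eq_iff_eq]
    exact (hρ.2 b hb).symm
  rw [Perm.sign_mul, Perm.sign_inv, hρ.1, mul_one]
  refine and_congr_right fun _ => ?_
  constructor
  · intro h b hb
    have := h b hb
    rwa [Perm.mul_apply, h1 b hb] at this
  · intro h b hb
    rw [Perm.mul_apply, h1 b hb]
    exact h b hb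

/-- **The averaging lemma.** -/
lemma average {r t : ℕ} (ht : 2 * t + 1 ≤ κ) (hr : t + 2 ≤ r) (hκ : 2 ≤ κ)
    (G : (β → Lb κ) → ℕ)
    (hG1 : ∀ z, IsGauge z → ∀ l : β → Lb κ, G (fun x => act z (l x)) = G l) (B' : Finset β)
    (hB' : B'.card ≤ t)
    (hG2 : ∀ (c c' : Fin κ → ZMod 2) (l l' : β → Lb κ), Lab r c l → Lab r c' l' →
      (∀ b ∈ B', l b = l' b) → G l = G l') (B : Finset β) (hB : B.card ≤ t)
    {c c' : Fin κ → ZMod 2} {l l' : β → Lb κ} (hl : Lab r c l) (hl' : Lab r c' l')
    (hll : ∀ b ∈ B, l b = l' b) :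
    ∑ π ∈ Gam B, G (fun x => l (π.symm x)) = ∑ π ∈ Gam B, G (fun x => l' (π.symm x)) := by
  classical
  let pat : (β → Lb κ) → Perm β → β → Option (Fin κ) := fun l π b =>
    if b ∈ B' then part (l (π.symm b)) else none
  rw [← Finset.sum_fiberwise (Gam B) (pat l), ← Finset.sum_fiberwise (Gam B) (pat l')]
  refine Finset.sum_congr rfl fun p _ => ?_
  -- an untouched part
  obtain ⟨r₀, hr₀⟩ : ∃ r₀ : Fin κ, (∀ b ∈ B', p b ≠ some r₀) ∧ ∀ b ∈ B, part (l b) ≠ some r₀ := by
    by_contra hcon
    push Not at hcon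
    have h1 : (univ : Finset (Fin κ)).map ⟨some, Option.some_injective _⟩ ⊆
        B'.image p ∪ B.image (fun b => part (l b)) := by
      intro a ha
      rw [Finset.mem_map] at ha
      obtain ⟨i, -, rfl⟩ := ha
      rw [mem_union, mem_image, mem_image]
      by_cases h2 : ∀ b ∈ B', p b ≠ some i
      · obtain ⟨b, hb, h3⟩ := hcon i h2
        exact Or.inr ⟨b, hb, h3⟩
      · push Not at h2
        obtain ⟨b, hb, h3⟩ := h2
        exact Or.inl ⟨b, hb, h3⟩
    have h2 := card_le_card h1
    rw [card_map, card_univ, Fintype.card_fin] at h2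
    have h3 := card_union_le (B'.image p) (B.image fun b => part (l b))
    have h4 : (B'.image p).card ≤ B'.card := card_image_le
    have h5 : (B.image fun b => part (l b)).card ≤ B.card := card_image_le
    omega
  -- the gauge transformation
  set z : Fin κ → Fin κ → ZMod 2 := fun i j =>
    if (i ≠ r₀ ∧ c i ≠ c' i ∧ j = r₀) ∨ (j ≠ r₀ ∧ c j ≠ c' j ∧ i = r₀) then 1 else 0 with hz
  have hzg : IsGauge z := by
    refine ⟨fun i j => ?_, fun i => ?_⟩
    · simp only [hz]
      congr 1
      rw [eq_iff_iff, or_comm]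
    · simp only [hz]
      rw [if_neg]
      rintro (⟨h1, -, h2⟩ | ⟨h1, -, h2⟩) <;> exact h1 h2
  have hbd : ∀ i, i ≠ r₀ → (c + bdz z) i = c' i := by
    intro i hi
    have h1 : bdz z i = if c i ≠ c' i then 1 else 0 := by
      unfold bdz
      simp only [hz]
      rw [Finset.sum_eq_single r₀]
      · by_cases h2 : c i ≠ c' i
        · rw [if_pos h2, if_pos (Or.inl ⟨hi, h2, rfl⟩)]
        · rw [if_neg h2, if_neg]
          rintro (⟨-, h3, -⟩ | ⟨-, -, h3⟩)
          · exact h2 h3
          · exact hi h3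
      · intro j _ hj
        rw [if_neg]
        rintro (⟨-, -, h3⟩ | ⟨-, -, h3⟩)
        · exact hj h3
        · exact hi h3
      · intro h
        exact absurd (mem_univ _) h
    rw [Pi.add_apply, h1]
    split_ifs with h2
    · generalize c i = a at h2 ⊢
      generalize c' i = b at h2 ⊢
      revert a b
      decide
    · push Not at h2
      rw [h2, add_zero]
  set l₁ : β → Lb κ := fun x => act z (l x) with hl₁
  have hL₁ : Lab r (c + bdz z) l₁ := hl.act hzg
  have hB₁ : ∀ b ∈ B, l₁ b = l' b := by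
    intro b hb
    rw [← hll b hb]
    simp only [hl₁]
    cases hlb : l b with
    | none => rfl
    | some a =>
      simp only [act, Option.map_some, Option.some.injEq, Prod.ext_iff, true_and]
      have h1 : c a.1 = c' a.1 := by
        have h2 := (hl.valid hlb).2
        have h3 := (hl'.valid (x := b) (t := a) (by rw [← hll b hb, hlb])).2
        rw [← h2, ← h3]
      have h2 : a.1 ≠ r₀ := by
        intro h3
        refine hr₀.2 b hb ?_
        rw [hlb, ← h3]
        rfl
      have h3 : z a.1 = 0 := by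
        funext j
        simp only [hz, Pi.zero_apply]
        rw [if_neg]
        rintro (⟨-, h4, -⟩ | ⟨-, -, h4⟩)
        · exact h4 h1
        · exact h2 h4
      rw [h3, add_zero]
  -- two points with the same label outside of `B`
  obtain ⟨u, v, hu, hv, huv, huv'⟩ : ∃ u v : β, u ∉ B ∧ v ∉ B ∧ u ≠ v ∧ l' u = l' v := by
    obtain ⟨s, hs⟩ : ∃ s, Valid c' (r₀, s) := by
      obtain ⟨j, hj⟩ : ∃ j : Fin κ, j ≠ r₀ := by
        by_cases h : r₀.val = 0
        · exact ⟨⟨1, by omega⟩, fun h' => by
            have := congrArg Fin.val h'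
            simp only at this
            omega⟩
        · exact ⟨⟨0, by omega⟩, fun h' => h (by rw [← h'])⟩
      refine ⟨Pi.single j (c' r₀), ?_, ?_⟩
      · simp only
        rw [Pi.single_eq_of_ne hj.symm]
      · simp only
        rw [Finset.sum_pi_single']
        simp
    have h1 := hl' (r₀, s)
    rw [if_pos hs] at h1
    have h2 : 2 ≤ ((univ.filter fun x => l' x = some (r₀, s)) \ B).card := by
      have := Finset.le_card_sdiff B (univ.filter fun x => l' x = some (r₀, s))
      omega
    obtain ⟨u, hu, v, hv, huv⟩ := Finset.one_lt_card.1 h2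
    simp only [mem_sdiff, mem_filter, mem_univ, true_and] at hu hv
    exact ⟨u, v, hu.2, hv.2, huv, by rw [hu.1, hv.1]⟩
  obtain ⟨ρ, hρ1, hρ2, hρ3⟩ := exists_match_even (fun x => red r₀ (l₁ x)) (fun x => red r₀ (l' x)) B
    (fun b hb => by simp only [hB₁ b hb]) (card_red hκ hL₁ hl' r₀ hbd) hu hv huv
    (by simp only [huv'])
  have hρG : ρ ∈ Gam B := mem_Gam.2 ⟨hρ1, hρ2⟩
  have hpart : ∀ x, part (l (ρ x)) = part (l' x) := by
    intro x
    have h1 := congrArg part (hρ3 x)
    simp only [part_red, hl₁, part_act] at h1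
    exact h1
  symm
  refine Finset.sum_equiv (Equiv.mulRight ρ⁻¹) (fun π => ?_) (fun π hπ => ?_)
  · rw [mem_filter, mem_filter, Equiv.coe_mulRight, mul_mem_Gam hρG]
    refine and_congr_right fun _ => ?_
    have h1 : pat l (π * ρ⁻¹) = pat l' π := by
      funext b
      simp only [pat]
      split_ifs
      · rw [← hpart]
        rfl
      · rfl
    rw [h1]
  · rw [mem_filter] at hπ
    have h1 : G (fun x => l ((π * ρ⁻¹).symm x)) = G (fun x => l₁ (ρ (π.symm x))) := by
      rw [← hG1 z hzg (fun x => l ((π * ρ⁻¹).symm x))]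
      rfl
    rw [Equiv.coe_mulRight, h1]
    refine hG2 c' (c + bdz z) _ _ (hl'.comp π.symm)
      ((hL₁.comp ρ).comp π.symm) fun b hb => ?_
    refine (red_eq (hρ3 (π.symm b)) ?_).symm
    have h2 := congrFun hπ.2 b
    simp only [pat, if_pos hb] at h2
    rw [h2]
    exact hr₀.1 b hb

/-- The edges given by a labelling. -/
def edges (l : β → Lb κ) : Sym2 β → Bool :=
  Sym2.lift ⟨fun v w => adj (l v) (l w), fun v w => adj_comm _ _⟩

lemma edges_act {z : Fin κ → Fin κ → ZMod 2} (hz : IsGauge z) (l : β → Lb κ) :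
    edges (fun x => act z (l x)) = edges l := by
  funext e
  induction e using Sym2.ind with
  | _ => exact adj_act hz _ _

variable {ι : Type} [Fintype ι] {s : ℕ} (C : Circ ι s) (ρ : Perm β →* Perm ι)
  (inp : (Sym2 β → Bool) → ι → Bool)

/-- A gate of a symmetric circuit has the same value for all charges. -/
theorem same_value {r t : ℕ} (ht : 2 * t + 1 ≤ κ) (ht2 : 2 ≤ t) (hr : t + 2 ≤ r)
    (h1 : ∀ e : ι, (∃ b, ∀ y, inp y e = b) ∨ ∃ e' : Sym2 β, ∀ y, inp y e = y e')
    (h2 : ∀ (π : Perm β) (y : Sym2 β → Bool),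
      inp (fun e => y (Sym2.map π.symm e)) = fun e => inp y ((ρ π).symm e))
    (hsup : ∀ g, (C.gsupp ρ g).card ≤ t) (g : Fin s) :
    ∀ (c c' : Fin κ → ZMod 2) (l l' : β → Lb κ), Lab r c l → Lab r c' l' →
      (∀ b ∈ C.gsupp ρ g, l b = l' b) → C.val (inp (edges l)) g = C.val (inp (edges l')) g := by
  classical
  induction g using WellFoundedLT.induction with
  | ind g ih =>
    intro c c' l l' hl hl' hll
    -- supports of the nodes
    have hnode : ∀ u : ι ⊕ Fin s, C.wires g u ≠ 0 → ∃ B' : Finset β, B'.card ≤ t ∧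
        ∀ (c c' : Fin κ → ZMod 2) (l l' : β → Lb κ), Lab r c l → Lab r c' l' →
          (∀ b ∈ B', l b = l' b) → C.nval (inp (edges l)) u = C.nval (inp (edges l')) u := by
      intro u hu
      cases u with
      | inl e =>
        rcases h1 e with ⟨b, hb⟩ | ⟨e', he'⟩
        · refine ⟨∅, by simp, fun c c' l l' _ _ _ => ?_⟩
          simp only [Circ.nval, Sum.elim_inl, hb]
        · induction e' using Sym2.ind with
          | _ v w =>
            refine ⟨{v, w}, (card_le_two).trans ht2, fun c c' l l' _ _ h => ?_⟩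
            simp only [Circ.nval, Sum.elim_inl, he']
            change adj (l v) (l w) = adj (l' v) (l' w)
            rw [h v (by simp), h w (by simp)]
      | inr k => exact ⟨C.gsupp ρ k, hsup k, ih k (C.acyclic g k hu)⟩
    have hcomp : ∀ (π : Perm β) (l : β → Lb κ),
        inp (edges fun x => l (π.symm x)) = fun e => inp (edges l) ((ρ π).symm e) := by
      intro π l
      rw [← h2 π (edges l)]
      congr 1
      funext e
      induction e using Sym2.ind with
      | _ v w => rfl
    -- the counts are invariant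
    have hcount : ∀ (l : β → Lb κ), ∀ π ∈ Gam (C.gsupp ρ g),
        C.count (inp (edges fun x => l (π.symm x))) g = C.count (inp (edges l)) g := by
      intro l π hπ
      rw [mem_Gam] at hπ
      obtain ⟨σ, hσ, hσg⟩ := C.exists_lift ρ g hπ.2 hπ.1
      rw [hcomp]
      unfold Circ.count
      rw [← Equiv.sum_comp (Equiv.sumCongr (ρ π) σ)]
      refine sum_congr rfl fun u _ => ?_
      have hw : C.wires g (Equiv.sumCongr (ρ π) σ u) = C.wires g u := by
        have := (hσ.2 g).2 u
        rw [hσg] at this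
        exact this
      have hv : C.nval (fun e => inp (edges l) ((ρ π).symm e)) (Equiv.sumCongr (ρ π) σ u) =
          C.nval (inp (edges l)) u := C.nval_aut hσ _ u
      rw [hw, hv]
    have hcards : (Gam (C.gsupp ρ g)).card ≠ 0 := by
      rw [Finset.card_ne_zero]
      exact ⟨1, mem_Gam.2 ⟨map_one _, fun _ _ => rfl⟩⟩
    have hsum : ∀ l : β → Lb κ, (Gam (C.gsupp ρ g)).card * C.count (inp (edges l)) g =
        ∑ u, ∑ π ∈ Gam (C.gsupp ρ g),
          if C.nval (inp (edges fun x => l (π.symm x))) u then C.wires g u else 0 := by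
      intro l
      rw [Finset.sum_comm, ← smul_eq_mul, ← Finset.sum_const]
      refine sum_congr rfl fun π hπ => ?_
      rw [← hcount l π hπ]
      rfl
    have hmain : C.count (inp (edges l)) g = C.count (inp (edges l')) g := by
      have h3 : (Gam (C.gsupp ρ g)).card * C.count (inp (edges l)) g =
          (Gam (C.gsupp ρ g)).card * C.count (inp (edges l')) g := by
        rw [hsum, hsum]
        refine sum_congr rfl fun u _ => ?_
        by_cases hu : C.wires g u = 0
        · simp [hu]
        · obtain ⟨B', hB', hB'2⟩ := hnode u hu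
          refine average ht hr (by omega) (fun l => if C.nval (inp (edges l)) u then C.wires g u
            else 0) (fun z hz l => ?_) B' hB' (fun c c' l l' hl hl' h => ?_) (C.gsupp ρ g) (hsup g)
            hl hl' hll
          · simp only [edges_act hz]
          · simp only [hB'2 c c' l l' hl hl' h]
      exact Nat.eq_of_mul_eq_mul_left (Nat.pos_of_ne_zero hcards) h3
    rw [Circ.val_eq, Circ.val_eq, hmain]

end Pool.Agent.L5helper87.SW
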