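import Pool.Agent.L5helper42.Sym.Circuit

/-!
# Labellings with parities, gauge transformations, permutations
-/

set_option autoImplicit false

open Equiv Finset

namespace Pool.Agent.L5helper87.SW

variable {κ : ℕ}

/-- A label: none, or a part and a vector over the parts. -/
abbrev Lb (κ : ℕ) : Type := Option (Fin κ × (Fin κ → ZMod 2))

/-- The labels which are allowed for the charges `c`. -/
def Valid (c : Fin κ → ZMod 2) (t : Fin κ × (Fin κ → ZMod 2)) : Prop :=
  t.2 t.1 = 0 ∧ ∑ j, t.2 j = c t.1

instance (c : Fin κ → ZMod 2) : DecidablePred (Valid c) := fun _ => instDecidableAnd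

/-- Every allowed label occurs exactly `r` times. -/
def Lab {β : Type} [Fintype β] (r : ℕ) (c : Fin κ → ZMod 2) (l : β → Lb κ) : Prop :=
  ∀ t, (univ.filter fun x => l x = some t).card = if Valid c t then r else 0

/-- The adjacency of labels. -/
def adj : Lb κ → Lb κ → Bool
  | some (i, s), some (j, t) => decide (i ≠ j ∧ s j = t i)
  | _, _ => false

lemma adj_comm (a b : Lb κ) : adj a b = adj b a := by
  cases a with
  | none => cases b <;> rfl
  | some a =>
    cases b with
    | none => rfl
    | some b =>
      unfold adj
      rw [Bool.eq_iff_iff, decide_eq_true_iff, decide_eq_true_iff]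
      constructor
      · rintro ⟨h1, h2⟩; exact ⟨h1.symm, h2.symm⟩
      · rintro ⟨h1, h2⟩; exact ⟨h1.symm, h2.symm⟩

/-- The part of a label. -/
def part (a : Lb κ) : Option (Fin κ) := a.map Prod.fst

/-- Gauge transformations. -/
structure IsGauge (z : Fin κ → Fin κ → ZMod 2) : Prop where
  symm : ∀ i j, z i j = z j i
  diag : ∀ i, z i i = 0

def act (z : Fin κ → Fin κ → ZMod 2) (a : Lb κ) : Lb κ := a.map fun t => (t.1, t.2 + z t.1)

lemma part_act (z : Fin κ → Fin κ → ZMod 2) (a : Lb κ) : part (act z a) = part a := by
  cases a <;> rfl

lemma adj_act {z : Fin κ → Fin κ → ZMod 2} (hz : IsGauge z) (a b : Lb κ) :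
    adj (act z a) (act z b) = adj a b := by
  cases a with
  | none => cases b <;> rfl
  | some a =>
    cases b with
    | none => rfl
    | some b =>
      simp only [act, Option.map_some, adj, Pi.add_apply]
      rw [Bool.eq_iff_iff, decide_eq_true_iff, decide_eq_true_iff, hz.symm b.1 a.1,
        add_left_inj]

section

variable {β : Type} [Fintype β]

lemma Lab.valid {r : ℕ} {c : Fin κ → ZMod 2} {l : β → Lb κ} (h : Lab r c l) {x : β}
    {t : Fin κ × (Fin κ → ZMod 2)} (hx : l x = some t) : Valid c t := by
  by_contra hv
  have h1 := h t
  rw [if_neg hv, card_eq_zero] at h1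
  have : x ∈ (univ.filter fun x => l x = some t) := mem_filter.2 ⟨mem_univ _, hx⟩
  rw [h1] at this
  exact absurd this (notMem_empty x)

lemma Lab.comp {r : ℕ} {c : Fin κ → ZMod 2} {l : β → Lb κ} (h : Lab r c l) (π : Perm β) :
    Lab r c (fun x => l (π x)) := by
  intro t
  rw [← h t]
  refine Finset.card_bij (fun x _ => π x) (fun x hx => ?_) (fun x _ y _ h => π.injective h)
    (fun y hy => ⟨π.symm y, ?_, π.apply_symm_apply y⟩)
  · simpa using hx
  · simpa using hy

/-- The boundary of a gauge transformation. -/
def bdz (z : Fin κ → Fin κ → ZMod 2) (i : Fin κ) : ZMod 2 := ∑ j, z i j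

lemma Lab.act {r : ℕ} {c : Fin κ → ZMod 2} {l : β → Lb κ} (h : Lab r c l)
    {z : Fin κ → Fin κ → ZMod 2} (hz : IsGauge z) :
    Lab r (c + bdz z) (fun x => SW.act z (l x)) := by
  rintro ⟨i, s⟩
  have h1 := h (i, s - z i)
  have h2 : (univ.filter fun x => SW.act z (l x) = some (i, s)) =
      univ.filter fun x => l x = some (i, s - z i) := by
    ext x
    simp only [mem_filter, mem_univ, true_and]
    cases hl : l x with
    | none => simp [SW.act]
    | some a =>
      simp only [SW.act, Option.map_some, Option.some.injEq, Prod.mk.injEq, Prod.ext_iff]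
      constructor
      · rintro ⟨h3, h4⟩
        refine ⟨h3, ?_⟩
        rw [← h4, h3, add_sub_cancel_right]
      · rintro ⟨h3, h4⟩
        refine ⟨h3, ?_⟩
        rw [h4, h3, sub_add_cancel]
  rw [h2, h1]
  have h3 : Valid c (i, s - z i) ↔ Valid (c + bdz z) (i, s) := by
    unfold Valid bdz
    simp only [Pi.sub_apply, Pi.add_apply, hz.diag, sub_zero, sum_sub_distrib]
    rw [sub_eq_iff_eq_add]
  simp only [h3]

/-- The labels outside the part `r₀`. -/
def red (r₀ : Fin κ) (a : Lb κ) : Lb κ := if part a = some r₀ then some (r₀, 0) else a

lemma part_red (r₀ : Fin κ) (a : Lb κ) : part (red r₀ a) = part a := by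
  unfold red
  split_ifs with h
  · rw [h]; rfl
  · rfl

lemma red_eq {r₀ : Fin κ} {a b : Lb κ} (h : red r₀ a = red r₀ b) (hb : part b ≠ some r₀) :
    a = b := by
  have hp : part a = part b := by rw [← part_red r₀ a, h, part_red]
  unfold red at h
  rwa [if_neg (by rw [hp]; exact hb), if_neg hb] at h

lemma card_valid (hκ : 2 ≤ κ) (i : Fin κ) (c c' : Fin κ → ZMod 2) :
    (univ.filter fun s : Fin κ → ZMod 2 => Valid c (i, s)).card =
      (univ.filter fun s : Fin κ → ZMod 2 => Valid c' (i, s)).card := by
  obtain ⟨j, hj⟩ : ∃ j : Fin κ, j ≠ i := by
    by_cases h : i.val = 0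
    · exact ⟨⟨1, by omega⟩, fun h' => by
        have := congrArg Fin.val h'
        simp only at this
        omega⟩
    · exact ⟨⟨0, by omega⟩, fun h' => h (by rw [← h'])⟩
  refine Finset.card_bij (fun s _ => s + Pi.single j (c' i - c i)) (fun s hs => ?_)
    (fun s _ s' _ h => add_right_cancel h) (fun s hs => ⟨s - Pi.single j (c' i - c i), ?_, ?_⟩)
  · simp only [mem_filter, mem_univ, true_and, Valid, Pi.add_apply] at hs ⊢
    rw [Pi.single_eq_of_ne hj.symm, add_zero, sum_add_distrib, hs.2, Finset.sum_pi_single']
    simp only [mem_univ, if_true]
    exact ⟨hs.1, by ring⟩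
  · simp only [mem_filter, mem_univ, true_and, Valid, Pi.sub_apply] at hs ⊢
    rw [Pi.single_eq_of_ne hj.symm, sub_zero, sum_sub_distrib, hs.2, Finset.sum_pi_single']
    simp only [mem_univ, if_true]
    exact ⟨hs.1, by ring⟩
  · rw [sub_add_cancel]

lemma Lab.card_part {r : ℕ} {c : Fin κ → ZMod 2} {l : β → Lb κ} (h : Lab r c l) (i : Fin κ) :
    (univ.filter fun x => part (l x) = some i).card =
      r * (univ.filter fun s : Fin κ → ZMod 2 => Valid c (i, s)).card := by
  classical
  have h1 : (univ.filter fun x => part (l x) = some i) =
      (univ : Finset (Fin κ → ZMod 2)).biUnion fun s => univ.filter fun x => l x = some (i, s) := by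
    ext x
    simp only [mem_filter, mem_univ, true_and, mem_biUnion]
    cases hl : l x with
    | none => simp [part]
    | some a =>
      simp only [part, Option.map_some, Option.some.injEq, Prod.ext_iff]
      constructor
      · intro h; exact ⟨a.2, h, rfl⟩
      · rintro ⟨s, h, -⟩; exact h
  rw [h1, card_biUnion]
  · rw [Finset.sum_congr rfl fun s _ => h (i, s), ← Finset.sum_filter, Finset.sum_const,
      smul_eq_mul, mul_comm]
  · intro s _ s' _ hss
    rw [Function.onFun, Finset.disjoint_left]
    intro x hx hx'
    simp only [mem_filter, mem_univ, true_and] at hx hx'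
    rw [hx] at hx'
    simp only [Option.some.injEq, Prod.mk.injEq, true_and] at hx'
    exact hss hx'

/-- The reduced labels occur equally often. -/
lemma card_red (hκ : 2 ≤ κ) {r : ℕ} {c c' : Fin κ → ZMod 2} {l l' : β → Lb κ} (h : Lab r c l)
    (h' : Lab r c' l') (r₀ : Fin κ) (hc : ∀ i, i ≠ r₀ → c i = c' i) (a : Lb κ) :
    (univ.filter fun x => red r₀ (l x) = a).card = (univ.filter fun x => red r₀ (l' x) = a).card := by
  classical
  have hpart : ∀ i : Fin κ, (univ.filter fun x => part (l x) = some i).card =
      (univ.filter fun x => part (l' x) = some i).card := by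
    intro i
    rw [h.card_part, h'.card_part, card_valid hκ i c c']
  cases a with
  | none =>
    have key : ∀ l : β → Lb κ, (univ.filter fun x => red r₀ (l x) = none).card =
        Fintype.card β - ∑ i : Fin κ, (univ.filter fun x => part (l x) = some i).card := by
      intro l
      have e1 : (univ.filter fun x => red r₀ (l x) = none) =
          ((univ : Finset (Fin κ)).biUnion fun i => univ.filter fun x => part (l x) = some i)ᶜ := by
        ext x
        simp only [mem_filter, mem_univ, true_and, mem_compl, mem_biUnion, not_exists]
        unfold red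
        cases hl : l x with
        | none => simp [part]
        | some a =>
          simp only [part, Option.map_some, Option.some.injEq]
          constructor
          · intro h2
            split_ifs at h2
          · intro h2
            exact absurd rfl (h2 a.1)
      rw [e1, card_compl, card_biUnion]
      intro i _ j _ hij
      rw [Function.onFun, Finset.disjoint_left]
      intro x hx hx'
      simp only [mem_filter, mem_univ, true_and] at hx hx'
      rw [hx] at hx'
      exact hij (Option.some.inj hx')
    rw [key l, key l']
    simp only [hpart]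
  | some a =>
    obtain ⟨i, s⟩ := a
    by_cases hi : i = r₀
    · subst hi
      by_cases hs : s = 0
      · subst hs
        have key : ∀ l : β → Lb κ, (univ.filter fun x => red i (l x) = some (i, 0)) =
            univ.filter fun x => part (l x) = some i := by
          intro l
          ext x
          simp only [mem_filter, mem_univ, true_and]
          unfold red
          constructor
          · intro h2
            by_contra h3
            rw [if_neg h3] at h2
            rw [h2] at h3
            exact h3 rfl
          · intro h2
            rw [if_pos h2]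
        rw [key, key, hpart]
      · have key : ∀ l : β → Lb κ, (univ.filter fun x => red i (l x) = some (i, s)) = ∅ := by
          intro l
          ext x
          simp only [mem_filter, mem_univ, true_and, notMem_empty, iff_false]
          intro h2
          unfold red at h2
          split_ifs at h2 with h3
          · simp only [Option.some.injEq, Prod.mk.injEq, true_and] at h2
            exact hs h2.symm
          · rw [h2] at h3
            exact h3 rfl
        rw [key, key]
    · have key : ∀ l : β → Lb κ, (univ.filter fun x => red r₀ (l x) = some (i, s)) =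
          univ.filter fun x => l x = some (i, s) := by
        intro l
        ext x
        simp only [mem_filter, mem_univ, true_and]
        constructor
        · intro h2
          exact red_eq (r₀ := r₀) (by
            rw [h2]
            unfold red
            rw [if_neg]
            simp only [part, Option.map_some, Option.some.injEq]
            exact hi) (by
            simp only [part, Option.map_some, ne_eq, Option.some.injEq]
            exact hi)
        · intro h2
          rw [h2]
          unfold red
          rw [if_neg]
          simp only [part, Option.map_some, Option.some.injEq]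
          exact hi
      rw [key, key, h (i, s), h' (i, s)]
      have : Valid c (i, s) ↔ Valid c' (i, s) := by
        unfold Valid
        simp only [hc i hi]
      simp only [this]

/-- A permutation that fixes `B` and matches the values of two functions. -/
lemma exists_match [DecidableEq β] {γ : Type} [DecidableEq γ] (f g : β → γ) (B : Finset β)
    (hB : ∀ b ∈ B, f b = g b)
    (h : ∀ a, (univ.filter fun x => f x = a).card = (univ.filter fun x => g x = a).card) :
    ∃ ρ : Perm β, (∀ b ∈ B, ρ b = b) ∧ ∀ x, f (ρ x) = g x := by
  classical
  set f' : β → β ⊕ γ := fun x => if x ∈ B then Sum.inl x else Sum.inr (f x) with hf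
  set g' : β → β ⊕ γ := fun x => if x ∈ B then Sum.inl x else Sum.inr (g x) with hg
  have hcard : ∀ a, Fintype.card {x // g' x = a} = Fintype.card {x // f' x = a} := by
    intro a
    rw [Fintype.card_subtype, Fintype.card_subtype]
    cases a with
    | inl b =>
      congr 1
      ext x
      simp only [hf, hg, mem_filter, mem_univ, true_and]
      by_cases hx : x ∈ B
      · simp [hx]
      · simp [hx]
    | inr a =>
      have key : ∀ f : β → γ, (univ.filter fun x =>
          (if x ∈ B then (Sum.inl x : β ⊕ γ) else Sum.inr (f x)) = Sum.inr a).card +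
          (B.filter fun x => f x = a).card = (univ.filter fun x => f x = a).card := by
        intro f
        rw [← card_union_of_disjoint]
        · congr 1
          ext x
          simp only [mem_union, mem_filter, mem_univ, true_and]
          by_cases hx : x ∈ B
          · simp [hx]
          · simp [hx]
        · rw [Finset.disjoint_left]
          intro x hx hx'
          simp only [mem_filter, mem_univ, true_and] at hx hx'
          rw [if_pos hx'.1] at hx
          cases hx
      have h1 := key f
      have h2 := key g
      have h3 : (B.filter fun x => f x = a) = B.filter fun x => g x = a :=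
        Finset.filter_congr fun x hx => by rw [hB x hx]
      have h4 := h a
      rw [h3] at h1
      simp only [hf, hg]
      omega
  set ρ : Perm β := Equiv.ofFiberEquiv (fun a => Fintype.equivOfCardEq (hcard a)) with hρ
  have h1 : ∀ x, f' (ρ x) = g' x := fun x => Equiv.ofFiberEquiv_map _ x
  refine ⟨ρ, fun b hb => ?_, fun x => ?_⟩
  · have h2 := h1 b
    simp only [hf, hg, if_pos hb] at h2
    split_ifs at h2 with h3
    exact Sum.inl.inj h2
  · by_cases hx : x ∈ B
    · have h2 := h1 x
      simp only [hf, hg, if_pos hx] at h2
      split_ifs at h2 with h3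
      rw [Sum.inl.inj h2]
      exact hB x hx
    · have h2 := h1 x
      simp only [hf, hg, if_neg hx] at h2
      split_ifs at h2 with h3
      exact Sum.inr.inj h2

/-- The same, with an even permutation. -/
lemma exists_match_even [DecidableEq β] {γ : Type} [DecidableEq γ] (f g : β → γ) (B : Finset β)
    (hB : ∀ b ∈ B, f b = g b)
    (h : ∀ a, (univ.filter fun x => f x = a).card = (univ.filter fun x => g x = a).card)
    {u v : β} (hu : u ∉ B) (hv : v ∉ B) (huv : u ≠ v) (hguv : g u = g v) :
    ∃ ρ : Perm β, Perm.sign ρ = 1 ∧ (∀ b ∈ B, ρ b = b) ∧ ∀ x, f (ρ x) = g x := by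
  obtain ⟨ρ, h1, h2⟩ := exists_match f g B hB h
  rcases Int.units_eq_one_or (Perm.sign ρ) with hs | hs
  · exact ⟨ρ, hs, h1, h2⟩
  · refine ⟨ρ * swap u v, ?_, fun b hb => ?_, fun x => ?_⟩
    · rw [Perm.sign_mul, hs, Perm.sign_swap huv]
      rfl
    · rw [Perm.mul_apply, swap_apply_of_ne_of_ne (fun h : b = u => hu (h ▸ hb))
        (fun h : b = v => hv (h ▸ hb))]
      exact h1 b hb
    · rw [Perm.mul_apply, h2]
      by_cases hxu : x = u
      · rw [hxu, swap_apply_left, hguv]
      · by_cases hxv : x = v
        · rw [hxv, swap_apply_right, hguv]
        · rw [swap_apply_of_ne_of_ne hxu hxv]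

end

end Pool.Agent.L5helper87.SW
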