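import Pool.Agent.L5helper87.SW.Core

/-!
# Cliques in the graphs of labellings; large supports force large circuits
-/

set_option autoImplicit false

open Equiv Finset

namespace Pool.Agent.L5helper87.SW

open Pool.Agent.L5helper42.Sym

variable {κ : ℕ} {β : Type} [Fintype β] [DecidableEq β]

omit [DecidableEq β] in
lemma exists_lab (c : Fin κ → ZMod 2) (r : ℕ) (h : r * (κ * 2 ^ κ) ≤ Fintype.card β) :
    ∃ l : β → Lb κ, Lab r c l := by
  classical
  have h1 : Fintype.card ({t // Valid c t} × Fin r) ≤ Fintype.card β := by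
    rw [Fintype.card_prod, Fintype.card_fin]
    have h2 : Fintype.card {t // Valid c t} ≤ Fintype.card (Fin κ × (Fin κ → ZMod 2)) :=
      Fintype.card_subtype_le _
    have h3 : Fintype.card (Fin κ × (Fin κ → ZMod 2)) = κ * 2 ^ κ := by
      simp [ZMod.card]
    rw [h3] at h2
    calc _ ≤ κ * 2 ^ κ * r := Nat.mul_le_mul_right _ h2
      _ = r * (κ * 2 ^ κ) := mul_comm _ _
      _ ≤ _ := h
  obtain ⟨e⟩ := Function.Embedding.nonempty_of_card_le h1
  set l : β → Lb κ := Function.extend e (fun p => some p.1.1) (fun _ => none) with hl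
  refine ⟨l, fun t => ?_⟩
  have hval : ∀ p, l (e p) = some p.1.1 := fun p => e.injective.extend_apply _ _ p
  have hno : ∀ x, (¬ ∃ p, e p = x) → l x = none := fun x hx => Function.extend_apply' _ _ _ hx
  split_ifs with ht
  · have h2 : (univ.filter fun x => l x = some t) =
        (univ : Finset (Fin r)).map ⟨fun i => e (⟨t, ht⟩, i), fun i j hij => by
          have := e.injective hij
          simpa using this⟩ := by
      ext x
      simp only [mem_filter, mem_univ, true_and, Finset.mem_map]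
      constructor
      · intro hx
        by_cases hp : ∃ p, e p = x
        · obtain ⟨p, rfl⟩ := hp
          rw [hval] at hx
          refine ⟨p.2, ?_⟩
          obtain ⟨⟨p1, hp1⟩, p2⟩ := p
          have h9 : p1 = t := Option.some.inj hx
          subst h9
          rfl
        · rw [hno x hp] at hx
          cases hx
      · rintro ⟨i, rfl⟩
        exact hval _
    rw [h2, card_map, card_univ, Fintype.card_fin]
  · rw [card_eq_zero]
    ext x
    simp only [mem_filter, mem_univ, true_and, notMem_empty, iff_false]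
    intro hx
    by_cases hp : ∃ p, e p = x
    · obtain ⟨p, rfl⟩ := hp
      rw [hval] at hx
      exact ht ((Option.some.inj hx) ▸ p.1.2)
    · rw [hno x hp] at hx
      cases hx

/-- The graph with the given edges. -/
abbrev gr (y : Sym2 β → Bool) : SimpleGraph β := SimpleGraph.fromEdgeSet {e | y e = true}

omit [Fintype β] [DecidableEq β] in
lemma gr_adj (l : β → Lb κ) (v w : β) : (gr (edges l)).Adj v w ↔ adj (l v) (l w) = true := by
  rw [SimpleGraph.fromEdgeSet_adj]
  constructor
  · exact fun h => h.1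
  · intro h
    refine ⟨h, ?_⟩
    rintro rfl
    cases hl : l v with
    | none => rw [hl] at h; cases h
    | some a => rw [hl] at h; simp [adj] at h

omit [DecidableEq β] in
lemma clique_zero {r : ℕ} (hr : 1 ≤ r) {l : β → Lb κ} (hl : Lab r 0 l) :
    ¬ (gr (edges l)).CliqueFree κ := by
  have h1 : ∀ i : Fin κ, ∃ x, l x = some (i, 0) := by
    intro i
    have h2 := hl (i, 0)
    rw [if_pos ⟨rfl, by simp⟩] at h2
    have : 0 < (univ.filter fun x => l x = some (i, (0 : Fin κ → ZMod 2))).card := by omega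
    obtain ⟨x, hx⟩ := card_pos.1 this
    exact ⟨x, (mem_filter.1 hx).2⟩
  choose v hv using h1
  have hne : ∀ i j, i ≠ j → (gr (edges l)).Adj (v i) (v j) := by
    intro i j hij
    rw [gr_adj, hv, hv]
    simp [adj, hij]
  have hinj : Function.Injective v := by
    intro i j hij
    by_contra h
    exact (hne i j h).ne hij
  intro hcf
  refine hcf (univ.map ⟨v, hinj⟩) ⟨?_, by simp⟩
  intro x hx y hy hxy
  simp only [coe_map, Function.Embedding.coeFn_mk, coe_univ, Set.image_univ, Set.mem_range] at hx hy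
  obtain ⟨i, rfl⟩ := hx
  obtain ⟨j, rfl⟩ := hy
  exact hne i j fun h => hxy (by rw [h])

lemma sum_symm_zero (M : Fin κ → Fin κ → ZMod 2) (h1 : ∀ i j, M i j = M j i)
    (h2 : ∀ i, M i i = 0) : ∑ i, ∑ j, M i j = 0 := by
  rw [← Finset.sum_product']
  refine Finset.sum_involution (fun p _ => (p.2, p.1)) (fun p _ => ?_) (fun p _ hp => ?_)
    (fun p _ => by simp) (fun p _ => rfl)
  · simp only
    rw [h1 p.2 p.1]
    exact CharTwo.add_self_eq_zero _
  · intro h
    apply hp
    have h3 : p.2 = p.1 := congrArg Prod.fst h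
    rw [h3]
    exact h2 _

lemma clique_odd (hκ : 2 ≤ κ) {r : ℕ} {c : Fin κ → ZMod 2} (hc : ∑ i, c i ≠ 0) {l : β → Lb κ}
    (hl : Lab r c l) : (gr (edges l)).CliqueFree κ := by
  rintro S ⟨hS1, hS2⟩
  have hadj : ∀ v ∈ S, ∀ w ∈ S, v ≠ w → adj (l v) (l w) = true := fun v hv w hw hvw =>
    (gr_adj l v w).1 (hS1 hv hw hvw)
  have hsome : ∀ v ∈ S, ∃ a, l v = some a := by
    intro v hv
    obtain ⟨w, hw, hvw⟩ := Finset.exists_mem_ne (by omega : 1 < S.card) v
    have h1 := hadj v hv w hw hvw.symm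
    cases hlv : l v with
    | none => rw [hlv] at h1; cases h1
    | some a => exact ⟨a, rfl⟩
  have : Nonempty (Fin κ × (Fin κ → ZMod 2)) := ⟨(⟨0, by omega⟩, 0)⟩
  choose! a ha using hsome
  have hdist : ∀ v ∈ S, ∀ w ∈ S, v ≠ w → (a v).1 ≠ (a w).1 ∧ (a v).2 (a w).1 = (a w).2 (a v).1 := by
    intro v hv w hw hvw
    have h1 := hadj v hv w hw hvw
    rw [ha v hv, ha w hw] at h1
    unfold adj at h1
    exact of_decide_eq_true h1
  have hinj : Set.InjOn (fun v => (a v).1) S := by
    intro v hv w hw hvw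
    by_contra h
    exact (hdist v hv w hw h).1 hvw
  have himg : S.image (fun v => (a v).1) = univ := by
    apply Finset.eq_univ_of_card
    rw [card_image_of_injOn hinj, hS2, Fintype.card_fin]
  have hex : ∀ i : Fin κ, ∃ v ∈ S, (a v).1 = i := by
    intro i
    have : i ∈ S.image (fun v => (a v).1) := by rw [himg]; exact mem_univ _
    exact mem_image.1 this
  choose v hv1 hv2 using hex
  apply hc
  have h3 : ∀ i, c i = ∑ j, (a (v i)).2 j := by
    intro i
    have h4 := hl.valid (ha (v i) (hv1 i))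
    rw [h4.2, hv2]
  rw [Finset.sum_congr rfl fun i _ => h3 i]
  refine sum_symm_zero (fun i j => (a (v i)).2 j) (fun i j => ?_) (fun i => ?_)
  · by_cases hij : i = j
    · rw [hij]
    · have hne : v i ≠ v j := by
        intro h
        apply hij
        rw [← hv2 i, ← hv2 j, h]
      have := (hdist _ (hv1 i) _ (hv1 j) hne).2
      rwa [hv2, hv2] at this
  · have h4 := (hl.valid (ha (v i) (hv1 i))).1
    rwa [hv2] at h4

variable {ι : Type} [Fintype ι] {s : ℕ} (C : Circ ι s) (ρ : Perm β →* Perm ι)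

/-- Supports move with the gates. -/
lemma gsupp_image {g : Fin s} {π : Perm β} {σ : Perm (Fin s)} (h : (π, σ) ∈ C.autGrp ρ)
    (hc : 2 * (C.gsupp ρ g).card + 2 ≤ Fintype.card β)
    (hc' : 2 * (C.gsupp ρ (σ g)).card + 2 ≤ Fintype.card β) :
    C.gsupp ρ (σ g) = (C.gsupp ρ g).map π.toEmbedding := by
  have key : ∀ (g : Fin s) (π : Perm β) (σ : Perm (Fin s)), (π, σ) ∈ C.autGrp ρ →
      Full (C.stab ρ (σ g)) ((C.gsupp ρ g).map π.toEmbedding)ᶜ := by
    intro g π σ h a ha b hb c hc hab hac hbc
    simp only [mem_compl, mem_map_equiv] at ha hb hc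
    have h1 := full_supp (C.stab ρ g) (π⁻¹ a) (mem_compl.2 ha) (π⁻¹ b) (mem_compl.2 hb)
      (π⁻¹ c) (mem_compl.2 hc) (fun h => hab (π⁻¹.injective h)) (fun h => hac (π⁻¹.injective h))
      (fun h => hbc (π⁻¹.injective h))
    obtain ⟨τ, h2, h3⟩ := h1
    refine ⟨σ * τ * σ⁻¹, ?_, ?_⟩
    · have h4 := (C.autGrp ρ).mul_mem ((C.autGrp ρ).mul_mem h h2) ((C.autGrp ρ).inv_mem h)
      have h5 : swap a b * swap a c = π * (swap (π⁻¹ a) (π⁻¹ b) * swap (π⁻¹ a) (π⁻¹ c)) * π⁻¹ := by
        have e1 : ∀ x y : β, swap x y = π * swap (π⁻¹ x) (π⁻¹ y) * π⁻¹ := by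
          intro x y
          rw [Perm.mul_def, Perm.mul_def]
          ext z
          simp [swap_apply_def]
          split_ifs <;> simp_all
        rw [e1 a b, e1 a c]
        group
      rw [h5]
      exact h4
    · rw [Perm.mul_apply, Perm.mul_apply, show σ⁻¹ (σ g) = g from σ.symm_apply_apply g, h3]
  have h1 : C.gsupp ρ (σ g) ⊆ (C.gsupp ρ g).map π.toEmbedding := by
    refine supp_subset (key g π σ h) ?_
    rw [card_map]
    unfold Circ.gsupp at hc hc' ⊢
    omega
  refine Finset.eq_of_subset_of_card_le h1 ?_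
  rw [card_map]
  have h2 := key (σ g) π⁻¹ σ⁻¹ ((C.autGrp ρ).inv_mem h)
  rw [show σ⁻¹ (σ g) = g from σ.symm_apply_apply g] at h2
  have h4 := supp_card_le_of_full h2
  rw [card_map] at h4
  exact h4

lemma choose_mono_half {m a b : ℕ} (hab : a ≤ b) (hb : 2 * b ≤ m) : m.choose a ≤ m.choose b := by
  induction b, hab using Nat.le_induction with
  | base => exact le_rfl
  | succ k _ ih => exact (ih (by omega)).trans (Nat.choose_le_succ_of_lt_half_left (by omega))

/-- A gate with a support of more than `t` elements forces many gates. -/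
theorem size_of_support (hC : C.Inv ρ) {t : ℕ} (g : Fin s) (hg : t + 1 ≤ (C.gsupp ρ g).card) :
    Fintype.card β ≤ 6 * Nat.log 2 (s ^ 2) + 1 ∨ (Fintype.card β).choose (t + 1) ≤ s := by
  classical
  by_cases hcase : Fintype.card β ≤ 6 * Nat.log 2 (s ^ 2) + 1
  · exact Or.inl hcase
  right
  push Not at hcase
  have hsup := C.gsupp_card_le ρ hC
  refine (choose_mono_half hg (by have := hsup g; omega)).trans ?_
  have hex : ∀ X : Finset β, X.card = (C.gsupp ρ g).card → ∃ g' : Fin s, C.gsupp ρ g' = X := by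
    intro X hX
    obtain ⟨τ, -, hτ⟩ := exists_match (fun x => decide (x ∈ C.gsupp ρ g)) (fun x => decide (x ∈ X)) ∅
      (fun b hb => absurd hb (notMem_empty b)) (fun a => by
        cases a with
        | true => simp [hX]
        | false =>
          simp only [decide_eq_false_iff_not]
          rw [← compl_filter, ← compl_filter, card_compl, card_compl]
          simp [hX])
    obtain ⟨σ, hσ⟩ := hC τ⁻¹
    refine ⟨σ g, ?_⟩
    rw [gsupp_image C ρ (g := g) (π := τ⁻¹) (σ := σ) hσ (by have := hsup g; omega)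
      (by have := hsup (σ g); omega)]
    ext x
    rw [mem_map_equiv]
    have := hτ x
    rw [decide_eq_decide] at this
    exact this
  have : Nonempty (Fin s) := ⟨g⟩
  choose! F hF using hex
  have h1 : (univ.powersetCard (C.gsupp ρ g).card : Finset (Finset β)).card ≤
      (univ : Finset (Fin s)).card := by
    refine Finset.card_le_card_of_injOn F (fun _ _ => mem_univ _) ?_
    intro X hX Y hY h
    rw [mem_coe, mem_powersetCard] at hX hY
    rw [← hF X hX.2, ← hF Y hY.2, h]
  rwa [card_powersetCard, card_univ, card_univ, Fintype.card_fin] at h1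

/-- **Lower bound for symmetric circuits which detect cliques.** -/
theorem clique_bound {t : ℕ} (ht : 2 * t + 1 ≤ κ) (ht2 : 2 ≤ t)
    (hm : (t + 2) * (κ * 2 ^ κ) ≤ Fintype.card β) (hC : C.Inv ρ)
    (inp : (Sym2 β → Bool) → ι → Bool)
    (h1 : ∀ e : ι, (∃ b, ∀ y, inp y e = b) ∨ ∃ e' : Sym2 β, ∀ y, inp y e = y e')
    (h2 : ∀ (π : Perm β) (y : Sym2 β → Bool),
      inp (fun e => y (Sym2.map π.symm e)) = fun e => inp y ((ρ π).symm e))
    (h3 : ∀ y, C.val (inp y) C.out = true ↔ ¬ (gr y).CliqueFree κ) :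
    Fintype.card β ≤ 6 * Nat.log 2 (s ^ 2) + 1 ∨ (Fintype.card β).choose (t + 1) ≤ s := by
  by_contra hcon
  have hsup : ∀ g, (C.gsupp ρ g).card ≤ t := by
    intro g
    by_contra hg
    push Not at hg
    exact hcon (size_of_support C ρ hC g hg)
  obtain ⟨l, hl⟩ := exists_lab (β := β) (κ := κ) 0 (t + 2) hm
  set c : Fin κ → ZMod 2 := Pi.single ⟨0, by omega⟩ 1 with hc
  obtain ⟨l', hl'⟩ := exists_lab (β := β) c (t + 2) hm
  have h4 := same_value C ρ inp ht ht2 le_rfl h1 h2 hsup C.out 0 c l l' hl hl' (by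
    rw [C.gsupp_out ρ hC]
    exact fun b hb => absurd hb (notMem_empty b))
  have h5 := (h3 (edges l)).2 (clique_zero (by omega) hl)
  rw [h4, h3] at h5
  exact h5 (clique_odd (by omega) (by
    rw [hc, Finset.sum_pi_single']
    simp) hl')

end Pool.Agent.L5helper87.SW
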