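import Pool.Agent.L5helper87.SW.Size
import Pool.Agent.L5helper58.KS.Emb

/-!
# Symmetric circuits which decide short halting
-/

set_option autoImplicit false

open Equiv Finset Filter

namespace Pool.Agent.L5helper87.SW

open Pool.Agent.L5helper42.Sym Pool.Agent.L5helper58.KS

/-- Renaming the states by `ρQ` and the symbols by `ρA` in the table of a machine. -/
def renameTab {n : ℕ} (ρQ ρA : Perm (Fin n)) : Perm (Tab n) :=
  ρQ.prodCongr (ρA.prodCongr (ρQ.prodCongr (ρA.prodCongr (Equiv.refl _))))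

/-- A circuit on tables is symmetric if it is invariant under all renamings of the states and of the
symbols which fix the start state `0`, the halting state `1` and the blank `0`. -/
def Symmetric {n s : ℕ} (C : Circ (Tab n) s) : Prop :=
  ∀ ρQ ρA : Perm (Fin n), (∀ q, q.val ≤ 1 → ρQ q = q) → (∀ a, a.val = 0 → ρA a = a) →
    ∃ σ : Perm (Fin s), C.IsAut (renameTab ρQ ρA) σ

/-- The action on the states. -/
def stFun {κ m : ℕ} (π : Fin m → Fin m) : St κ m → St κ m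
  | .g i => .g i
  | .ret i => .ret i
  | .sw i v => .sw i (π v)
  | .halt => .halt

def stPerm (κ : ℕ) {m : ℕ} : Perm (Fin m) →* Perm (St κ m) where
  toFun π := ⟨stFun π, stFun π.symm, by rintro (_ | _ | _ | _) <;> simp [stFun],
    by rintro (_ | _ | _ | _) <;> simp [stFun]⟩
  map_one' := by
    ext q
    cases q <;> rfl
  map_mul' π π' := by
    ext q
    cases q <;> rfl

/-- The action on the symbols. -/
def syFun {κ m : ℕ} (π : Fin m → Fin m) : Sy κ m → Sy κ m := Option.map fun p => (p.1, π p.2)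

def syPerm (κ : ℕ) {m : ℕ} : Perm (Fin m) →* Perm (Sy κ m) where
  toFun π := ⟨syFun π, syFun π.symm, by rintro (_ | _) <;> simp [syFun],
    by rintro (_ | _) <;> simp [syFun]⟩
  map_one' := by
    apply Equiv.ext
    intro q
    cases q <;> rfl
  map_mul' π π' := by
    apply Equiv.ext
    intro q
    cases q <;> rfl

variable {κ m n : ℕ}

lemma tr_map {G G' : SimpleGraph (Fin m)} (π : Perm (Fin m))
    (h : ∀ v w, G.Adj v w → G'.Adj (π v) (π w)) {q : St κ m} {a : Sy κ m} {q' : St κ m}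
    {a' : Sy κ m} {d : Option Bool} (ht : Tr G q a q' a' d) :
    Tr G' (stPerm κ π q) (syPerm κ π a) (stPerm κ π q') (syPerm κ π a') d := by
  cases ht with
  | guess i v => exact .guess i (π v)
  | turn i hi => exact .turn i hi
  | back i j v h' => exact .back i j (π v) h'
  | pick i v => exact .pick i (π v)
  | check i j v w h' hG => exact .check i j (π v) (π w) h' (h v w hG)
  | next i j v h' h2 => exact .next i j (π v) h' h2
  | fin i v h' => exact .fin i (π v) h'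

/-- Renaming the vertices renames states and symbols. -/
noncomputable def rho (iQ : St κ m ↪ Fin n) (iA : Sy κ m ↪ Fin n) : Perm (Fin m) →* Perm (Tab n) where
  toFun π := renameTab (Perm.viaEmbedding (stPerm κ π) iQ) (Perm.viaEmbedding (syPerm κ π) iA)
  map_one' := by
    have h1 : Perm.viaEmbedding (stPerm κ (1 : Perm (Fin m))) iQ = 1 := by
      rw [map_one]
      exact map_one (Perm.viaEmbeddingHom iQ)
    have h2 : Perm.viaEmbedding (syPerm κ (1 : Perm (Fin m))) iA = 1 := by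
      rw [map_one]
      exact map_one (Perm.viaEmbeddingHom iA)
    rw [h1, h2]
    rfl
  map_mul' π π' := by
    have h1 : Perm.viaEmbedding (stPerm κ (π * π')) iQ =
        Perm.viaEmbedding (stPerm κ π) iQ * Perm.viaEmbedding (stPerm κ π') iQ := by
      rw [map_mul]
      exact map_mul (Perm.viaEmbeddingHom iQ) _ _
    have h2 : Perm.viaEmbedding (syPerm κ (π * π')) iA =
        Perm.viaEmbedding (syPerm κ π) iA * Perm.viaEmbedding (syPerm κ π') iA := by
      rw [map_mul]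
      exact map_mul (Perm.viaEmbeddingHom iA) _ _
    rw [h1, h2]
    rfl

lemma renameTab_symm (ρQ ρA : Perm (Fin n)) : (renameTab ρQ ρA).symm = renameTab ρQ.symm ρA.symm :=
  rfl

lemma tabOf_rename (iQ : St κ m ↪ Fin n) (iA : Sy κ m ↪ Fin n) (π : Perm (Fin m))
    (y : Sym2 (Fin m) → Bool) :
    tabOf iQ iA (fun e => y (Sym2.map π.symm e)) =
      fun e => tabOf iQ iA y ((rho iQ iA π).symm e) := by
  classical
  have hQ : ∀ q, (Perm.viaEmbedding (stPerm κ π) iQ) (iQ q) = iQ (stPerm κ π q) := fun q =>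
    Perm.viaEmbedding_apply _ _ _
  have hA : ∀ q, (Perm.viaEmbedding (syPerm κ π) iA) (iA q) = iA (syPerm κ π q) := fun q =>
    Perm.viaEmbedding_apply _ _ _
  funext e
  rw [Bool.eq_iff_iff]
  unfold tabOf
  refine Iff.trans (@decide_eq_true_iff _ (_)) (Iff.trans ?_ (@decide_eq_true_iff _ (_)).symm)
  have hrho : (rho iQ iA π).symm e = ((Perm.viaEmbedding (stPerm κ π) iQ).symm e.1,
      (Perm.viaEmbedding (syPerm κ π) iA).symm e.2.1,
      (Perm.viaEmbedding (stPerm κ π) iQ).symm e.2.2.1,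
      (Perm.viaEmbedding (syPerm κ π) iA).symm e.2.2.2.1, e.2.2.2.2) := rfl
  rw [hrho]
  constructor
  · rintro ⟨q, a, q', a', ht, h1, h2, h3, h4⟩
    refine ⟨stPerm κ π.symm q, syPerm κ π.symm a, stPerm κ π.symm q', syPerm κ π.symm a',
      tr_map π.symm (fun v w hvw => ?_) ht, ?_, ?_, ?_, ?_⟩
    · rw [SimpleGraph.fromEdgeSet_adj] at hvw ⊢
      refine ⟨?_, fun h => hvw.2 (π.symm.injective h)⟩
      have h5 := hvw.1
      simp only [Set.mem_ofPred_eq, Sym2.map_mk] at h5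
      exact h5
    · rw [← h1, Equiv.eq_symm_apply, hQ, ← Perm.mul_apply, ← map_mul,
        show π * π.symm = 1 from Equiv.symm_trans_self π, map_one]
      rfl
    · rw [← h2, Equiv.eq_symm_apply, hA, ← Perm.mul_apply, ← map_mul,
        show π * π.symm = 1 from Equiv.symm_trans_self π, map_one]
      rfl
    · rw [← h3, Equiv.eq_symm_apply, hQ, ← Perm.mul_apply, ← map_mul,
        show π * π.symm = 1 from Equiv.symm_trans_self π, map_one]
      rfl
    · rw [← h4, Equiv.eq_symm_apply, hA, ← Perm.mul_apply, ← map_mul,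
        show π * π.symm = 1 from Equiv.symm_trans_self π, map_one]
      rfl
  · rintro ⟨q, a, q', a', ht, h1, h2, h3, h4⟩
    rw [Equiv.eq_symm_apply, hQ] at h1 h3
    rw [Equiv.eq_symm_apply, hA] at h2 h4
    refine ⟨stPerm κ π q, syPerm κ π a, stPerm κ π q', syPerm κ π a',
      tr_map π (fun v w hvw => ?_) ht, h1, h2, h3, h4⟩
    rw [SimpleGraph.fromEdgeSet_adj] at hvw ⊢
    refine ⟨?_, fun h => hvw.2 (π.injective h)⟩
    simp only [Set.mem_ofPred_eq, Sym2.map_mk, Equiv.symm_apply_apply]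
    exact hvw.1

/-- The bound with all its parameters. -/
theorem halting_bound {κ m n k t s : ℕ} (hk : κ * κ + 2 * κ ≤ k + 1) (hn : κ * m + 2 * κ + 2 ≤ n)
    (ht : 2 * t + 1 ≤ κ) (ht2 : 2 ≤ t) (hm : (t + 2) * (κ * 2 ^ κ) ≤ m) (C : Circ (Tab n) s)
    (hC : Symmetric C) (hdec : ∀ x, C.val x C.out = true ↔ Halts (machineOf x) k) :
    m ≤ 6 * Nat.log 2 (s ^ 2) + 1 ∨ m.choose (t + 1) ≤ s := by
  have hm0 : 0 < m := by
    have : 0 < (t + 2) * (κ * 2 ^ κ) := Nat.mul_pos (by omega) (Nat.mul_pos (by omega) (by positivity))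
    omega
  obtain ⟨iQ, iA, hQ, hA, hQ0, hQ1, hA0⟩ := exists_embeddings hn
  set jQ : St κ m ↪ Fin n := ⟨iQ, hQ⟩ with hjQ
  set jA : Sy κ m ↪ Fin n := ⟨iA, hA⟩ with hjA
  have hinv : C.Inv (rho jQ jA) := by
    intro π
    refine hC _ _ (fun q hq => ?_) (fun a ha => ?_)
    · rcases Nat.le_one_iff_eq_zero_or_eq_one.1 hq with h | h
      · have h1 : q = jQ (.g 0) := Fin.ext (h.trans hQ0.symm)
        rw [h1, Perm.viaEmbedding_apply]
        rfl
      · have h1 : q = jQ .halt := Fin.ext (h.trans hQ1.symm)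
        rw [h1, Perm.viaEmbedding_apply]
        rfl
    · have h1 : a = jA none := Fin.ext (ha.trans hA0.symm)
      rw [h1, Perm.viaEmbedding_apply]
      rfl
  have h := clique_bound (β := Fin m) (κ := κ) C (rho jQ jA) ht ht2 (by rwa [Fintype.card_fin]) hinv
    (fun y => tabOf iQ iA y) (fun e => tabOf_proj hQ hA e) (fun π y => tabOf_rename jQ jA π y)
    (fun y => by
      rw [hdec, clique_iff_halts (by omega) hm0 hQ hA hQ0 hQ1 hA0 y hk])
  rwa [Fintype.card_fin] at h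

/-- The asymptotic form. -/
theorem halting_asymptotic {κ k t : ℕ} (hk : κ * κ + 2 * κ ≤ k + 1) (ht : 2 * t + 1 ≤ κ)
    (ht2 : 2 ≤ t) {θ : ℝ} (hθ : θ < t + 1) : ∀ᶠ n : ℕ in atTop, ∀ (s : ℕ) (C : Circ (Tab n) s),
      Symmetric C → (∀ x, C.val x C.out = true ↔ Halts (machineOf x) k) → (n : ℝ) ^ θ ≤ s := by
  have hκ0 : 0 < κ := by omega
  -- facts for large `n`
  have hκr : (0 : ℝ) < κ := by exact_mod_cast hκ0
  have f1 : ∀ᶠ n : ℕ in atTop, (n : ℝ) ^ θ ≤ ((n : ℝ) / (2 * κ) / (2 * (t + 1))) ^ ((t : ℝ) + 1) := by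
    have h1 : Tendsto (fun n : ℕ => (n : ℝ) ^ ((t : ℝ) + 1 - θ)) atTop atTop :=
      (tendsto_rpow_atTop (by linarith)).comp tendsto_natCast_atTop_atTop
    filter_upwards [h1.eventually_ge_atTop ((2 * κ * (2 * (t + 1)) : ℝ) ^ ((t : ℝ) + 1)),
      eventually_ge_atTop 1] with n hn hn1
    have hn0 : (0 : ℝ) < n := by exact_mod_cast hn1
    rw [div_div, Real.div_rpow hn0.le (by positivity), le_div_iff₀ (Real.rpow_pos_of_pos (by positivity) _)]
    calc (n : ℝ) ^ θ * (2 * κ * (2 * (t + 1)) : ℝ) ^ ((t : ℝ) + 1)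
        ≤ (n : ℝ) ^ θ * (n : ℝ) ^ ((t : ℝ) + 1 - θ) := by gcongr
      _ = (n : ℝ) ^ ((t : ℝ) + 1) := by
        rw [← Real.rpow_add hn0]
        congr 1
        ring
  have f2 : ∀ᶠ n : ℕ in atTop, ((n : ℝ) ^ θ) ^ (12 * κ) * 2 ^ (4 * κ + 2) < (2 : ℝ) ^ n := by
    have h1 : (fun n : ℕ => (n : ℝ) ^ (θ * (12 * κ) : ℝ)) =o[atTop] fun n : ℕ =>
        Real.exp (Real.log 2 * (n : ℝ)) :=
      (isLittleO_rpow_exp_pos_mul_atTop _ (Real.log_pos (by norm_num))).comp_tendsto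
        tendsto_natCast_atTop_atTop
    have h2 := h1.def (c := 1 / (2 ^ (4 * κ + 2) * 2)) (by positivity)
    filter_upwards [h2] with n hn
    have e1 : ((n : ℝ) ^ θ) ^ (12 * κ) = (n : ℝ) ^ (θ * (12 * κ) : ℝ) := by
      rw [← Real.rpow_natCast, ← Real.rpow_mul (Nat.cast_nonneg n)]
      push_cast
      rfl
    have e2 : Real.exp (Real.log 2 * (n : ℝ)) = (2 : ℝ) ^ n := by
      rw [← Real.rpow_natCast, Real.rpow_def_of_pos (by norm_num)]
    rw [e2] at hn
    rw [e1]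
    have hp : (0 : ℝ) < (2 : ℝ) ^ n := by positivity
    have hq : (0 : ℝ) ≤ (n : ℝ) ^ (θ * (12 * κ) : ℝ) := Real.rpow_nonneg (Nat.cast_nonneg n) _
    rw [Real.norm_of_nonneg hq, Real.norm_of_nonneg hp.le] at hn
    calc (n : ℝ) ^ (θ * (12 * κ) : ℝ) * 2 ^ (4 * κ + 2)
        ≤ 1 / (2 ^ (4 * κ + 2) * 2) * (2 : ℝ) ^ n * 2 ^ (4 * κ + 2) := by gcongr
      _ = (2 : ℝ) ^ n / 2 := by field_simp
      _ < _ := by linarith
  have f3 : Tendsto (fun n : ℕ => (n - (2 * κ + 2)) / κ) atTop atTop := by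
    rw [tendsto_atTop]
    intro b
    filter_upwards [eventually_ge_atTop (b * κ + 2 * κ + 2)] with n hn
    rw [Nat.le_div_iff_mul_le hκ0]
    omega
  filter_upwards [f1, f2, f3.eventually_ge_atTop ((t + 2) * (κ * 2 ^ κ)),
    f3.eventually_ge_atTop (2 * t + 2), eventually_ge_atTop (6 * κ + 4)] with n h1 h2 h3 h4 hn s C hC
    hdec
  obtain ⟨m, hmn⟩ : ∃ m, m = (n - (2 * κ + 2)) / κ := ⟨_, rfl⟩
  rw [← hmn] at h3 h4
  have hmle : m * κ ≤ n - (2 * κ + 2) := by
    rw [hmn]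
    exact Nat.div_mul_le_self _ _
  have hmlt : n - (2 * κ + 2) < m * κ + κ := by
    have := Nat.lt_div_mul_add (a := n - (2 * κ + 2)) (b := κ) (by omega)
    rw [hmn]
    exact this
  have hemb : κ * m + 2 * κ + 2 ≤ n := by
    rw [mul_comm]
    omega
  have hn0 : (0 : ℝ) < n := by exact_mod_cast (by omega : 0 < n)
  have hnθ : (0 : ℝ) < (n : ℝ) ^ θ := Real.rpow_pos_of_pos hn0 θ
  have hs0 : 0 < s := by
    have := C.out.2
    omega
  rcases halting_bound hk hemb ht ht2 h3 C hC hdec with hb | hb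
  · by_contra hcon
    push Not at hcon
    have h5 : 2 ^ m ≤ 2 * s ^ 12 := by
      calc 2 ^ m ≤ 2 ^ (6 * Nat.log 2 (s ^ 2) + 1) := Nat.pow_le_pow_right (by norm_num) hb
        _ = 2 * (2 ^ Nat.log 2 (s ^ 2)) ^ 6 := by rw [← pow_mul, pow_succ]; ring
        _ ≤ 2 * (s ^ 2) ^ 6 := Nat.mul_le_mul_left _
            (Nat.pow_le_pow_left (Nat.pow_log_le_self 2 (by positivity)) 6)
        _ = 2 * s ^ 12 := by rw [← pow_mul]
    have h6 : (2 : ℝ) ^ m ≤ 2 * ((n : ℝ) ^ θ) ^ 12 := by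
      calc (2 : ℝ) ^ m ≤ 2 * (s : ℝ) ^ 12 := by exact_mod_cast h5
        _ ≤ _ := by gcongr
    have h7 : (2 : ℝ) ^ (m * κ) ≤ 2 ^ κ * ((n : ℝ) ^ θ) ^ (12 * κ) := by
      calc (2 : ℝ) ^ (m * κ) = (2 ^ m) ^ κ := by rw [pow_mul]
        _ ≤ (2 * ((n : ℝ) ^ θ) ^ 12) ^ κ := by gcongr
        _ = _ := by rw [mul_pow, ← pow_mul]
    have h8 : (2 : ℝ) ^ n ≤ 2 ^ (m * κ) * 2 ^ (3 * κ + 2) := by
      rw [← pow_add]
      exact pow_le_pow_right₀ (by norm_num) (by omega)
    have h9 : (2 : ℝ) ^ n ≤ ((n : ℝ) ^ θ) ^ (12 * κ) * 2 ^ (4 * κ + 2) := by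
      calc (2 : ℝ) ^ n ≤ 2 ^ (m * κ) * 2 ^ (3 * κ + 2) := h8
        _ ≤ (2 ^ κ * ((n : ℝ) ^ θ) ^ (12 * κ)) * 2 ^ (3 * κ + 2) := by gcongr
        _ = ((n : ℝ) ^ θ) ^ (12 * κ) * (2 ^ κ * 2 ^ (3 * κ + 2)) := by ring
        _ = _ := by
          rw [← pow_add]
          congr 2
          ring
    exact absurd h2 (not_lt.2 h9)
  · have hnm : (n : ℝ) / (2 * κ) ≤ m := by
      rw [div_le_iff₀ (by positivity)]
      have : n ≤ m * (2 * κ) := by
        have e1 : m * (2 * κ) = m * κ + m * κ := by ring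
        omega
      exact_mod_cast this
    have h5 : ((m : ℝ) / (2 * (t + 1))) ^ (t + 1) ≤ m.choose (t + 1) := by
      have h6 : (((m + 1 - (t + 1) : ℕ) : ℝ)) ^ (t + 1) ≤ ((t + 1).factorial : ℝ) * m.choose (t + 1) := by
        have := Nat.pow_sub_le_descFactorial m (t + 1)
        rw [Nat.descFactorial_eq_factorial_mul_choose] at this
        exact_mod_cast this
      have h7 : (m : ℝ) / 2 ≤ ((m + 1 - (t + 1) : ℕ) : ℝ) := by
        rw [div_le_iff₀ (by norm_num)]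
        have : m ≤ (m + 1 - (t + 1)) * 2 := by omega
        exact_mod_cast this
      have h8 : ((t + 1).factorial : ℝ) ≤ ((t : ℝ) + 1) ^ (t + 1) := by
        exact_mod_cast Nat.factorial_le_pow (t + 1)
      have h9 : (m : ℝ) / (2 * (t + 1)) = (m : ℝ) / 2 / (t + 1) := by rw [div_div]
      rw [h9, div_pow, div_le_iff₀ (by positivity)]
      calc ((m : ℝ) / 2) ^ (t + 1) ≤ (((m + 1 - (t + 1) : ℕ) : ℝ)) ^ (t + 1) := by gcongr
        _ ≤ ((t + 1).factorial : ℝ) * m.choose (t + 1) := h6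
        _ ≤ ((t : ℝ) + 1) ^ (t + 1) * m.choose (t + 1) := by gcongr
        _ = _ := by ring
    calc (n : ℝ) ^ θ ≤ ((n : ℝ) / (2 * κ) / (2 * (t + 1))) ^ ((t : ℝ) + 1) := h1
      _ = ((n : ℝ) / (2 * κ) / (2 * (t + 1))) ^ (t + 1) := by
        rw [← Real.rpow_natCast]
        push_cast
        rfl
      _ ≤ ((m : ℝ) / (2 * (t + 1))) ^ (t + 1) := by gcongr
      _ ≤ m.choose (t + 1) := h5
      _ ≤ s := by exact_mod_cast hb

end Pool.Agent.L5helper87.SW
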